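import Pool.Agent.Helper15.LR.Defs3

/-!
# One level with many tiny blocks (module R3)
-/

set_option autoImplicit false

open Finset Filter
open scoped Classical Topology

namespace Pool.Agent.Helper56.LR

open Pool.Agent.Helper15.LR

noncomputable section

/-- the parameters: `N` blocks of size `z` -/
theorem params {x G T ω : ℝ} (hx : 0 < x) (hxG : x ≤ G) (hGT : 100 * G ≤ T)
    (hT : 100 * T ≤ x ^ 2) (hω0 : 0 ≤ ω) (hω : 100 * G * ω ≤ x * T) :
    ∃ (N hh : ℕ) (z : ℝ), 2 * hh + 1 ≤ N ∧ 0 < z ∧ z ≤ x ∧ z * N = T ∧ G ≤ hh * z ∧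
      T - 2 * G ≤ z * (N - hh) ∧ ω * hh ≤ x / 25 * N ∧ ω * hh ≤ x / 25 * (N - hh) ∧
      4 * (N : ℝ) ≤ x / 10 := by
  have hG : 0 < G := lt_of_lt_of_le hx hxG
  have hT0 : 0 < T := by linarith
  have hx4 : 10000 ≤ x := by nlinarith
  set N : ℕ := ⌈T / x⌉₊ with hN
  have hN1 : T ≤ N * x := by
    have := Nat.le_ceil (T / x)
    rw [div_le_iff₀ hx] at this
    exact this
  have hN2 : (N : ℝ) * x < T + x := by
    have := Nat.ceil_lt_add_one (div_nonneg hT0.le hx.le)
    rw [← hN] at this
    have h2 : (N : ℝ) * x < (T / x + 1) * x := mul_lt_mul_of_pos_right this hx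
    rw [add_mul, div_mul_cancel₀ _ hx.ne', one_mul] at h2
    exact h2
  have hN100 : (100 : ℝ) ≤ N := by
    by_contra hcon
    push Not at hcon
    nlinarith
  have hN0 : (0 : ℝ) < N := by linarith
  set z : ℝ := T / N with hz
  have hz0 : 0 < z := div_pos hT0 hN0
  have hzN : z * N = T := div_mul_cancel₀ _ hN0.ne'
  have hzx : z ≤ x := by
    rw [hz, div_le_iff₀ hN0]
    linarith
  set hh : ℕ := ⌈G / z⌉₊ with hhh
  have hh1 : G ≤ hh * z := by
    have := Nat.le_ceil (G / z)
    rw [div_le_iff₀ hz0] at this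
    exact this
  have hh2 : (hh : ℝ) * z < G + z := by
    have := Nat.ceil_lt_add_one (div_nonneg hG.le hz0.le)
    rw [← hhh] at this
    have h2 : (hh : ℝ) * z < (G / z + 1) * z := mul_lt_mul_of_pos_right this hz0
    rw [add_mul, div_mul_cancel₀ _ hz0.ne', one_mul] at h2
    exact h2
  have hh3 : (hh : ℝ) * z ≤ 2 * G := by linarith
  have hh4 : 50 * (hh : ℝ) ≤ N := by
    by_contra hcon
    push Not at hcon
    have h5 : (N : ℝ) * z < 50 * hh * z := mul_lt_mul_of_pos_right hcon hz0
    nlinarith
  have hwh : ω * hh * z ≤ x / 50 * N * z := by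
    have h1 : ω * (hh * z) ≤ ω * (2 * G) := mul_le_mul_of_nonneg_left hh3 hω0
    have h2 : x / 50 * N * z = x / 50 * T := by rw [← hzN]; ring
    rw [h2]
    nlinarith
  have hwh' : ω * hh ≤ x / 50 * N := le_of_mul_le_mul_right hwh hz0
  refine ⟨N, hh, z, ?_, hz0, hzx, hzN, hh1, ?_, ?_, ?_, ?_⟩
  · have : 2 * (hh : ℝ) + 1 ≤ N := by linarith
    exact_mod_cast this
  · nlinarith
  · nlinarith
  · nlinarith
  · have h1 : (N : ℝ) * x < (x / 100 + 1) * x := by nlinarith
    have h2 : (N : ℝ) < x / 100 + 1 := lt_of_mul_lt_mul_right h1 hx.le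
    linarith

/-- uniform weights on the interval `[A, B]` -/
def wt (A B l : ℕ) : ℝ := if A ≤ l ∧ l ≤ B then 1 / ((B : ℝ) - A + 1) else 0

theorem wt_nonneg {A B : ℕ} (h : A ≤ B + 1) (l : ℕ) : 0 ≤ wt A B l := by
  have : (A : ℝ) ≤ B + 1 := by exact_mod_cast h
  unfold wt
  split_ifs
  · exact div_nonneg zero_le_one (by linarith)
  · exact le_rfl

theorem sum_wt (S : Finset ℕ) (A B : ℕ) :
    ∑ l ∈ S, wt A B l = ((S ∩ Icc A B).card : ℝ) / ((B : ℝ) - A + 1) := by
  have h : ∀ l, wt A B l = if l ∈ Icc A B then 1 / ((B : ℝ) - A + 1) else 0 := by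
    intro l
    unfold wt
    simp only [mem_Icc]
  rw [Finset.sum_congr rfl fun l _ => h l, Finset.sum_ite_mem, Finset.sum_const, nsmul_eq_mul]
  ring

theorem frac_le {c j M h : ℝ} (hM : 0 < M - h) (hh : 0 ≤ h) (h1 : c ≤ j) (h2 : c ≤ M - h) :
    c / (M - h) ≤ j / M + h / M := by
  have hM' : 0 < M := by linarith
  rw [← add_div, div_le_div_iff₀ hM hM']
  nlinarith

/-- the number of edges at a vertex with keys in `S` -/
theorem vb {V : Type} (K : Finset V) (sp : V → Prop) (κ : V → ℕ) (A B : V → ℕ) (S : Finset ℕ)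
    (M h z ω x : ℝ) (j : ℕ) (hM : 0 < M - h) (hh : 0 ≤ h)
    (h1 : ∀ l ∈ S, ((K.filter (fun u => κ u = l)).card : ℝ) ≤ ∑ u ∈ K, wt (A u) (B u) l + 4)
    (h2 : ∀ u ∈ K, ((B u : ℝ) - A u + 1 = M) ∨ (sp u ∧ (B u : ℝ) - A u + 1 = M - h))
    (h3 : ∀ u ∈ K, (S ∩ Icc (A u) (B u)).card ≤ j)
    (hAB : ∀ u ∈ K, A u ≤ B u + 1)
    (h4 : ((K.filter sp).card : ℝ) ≤ ω) (h5 : (K.card : ℝ) ≤ z * M)
    (h6 : ω * h ≤ x / 25 * M) (h7 : 4 * (S.card : ℝ) ≤ x / 10) (hx : 0 < x) :
    ((K.filter (fun u => κ u ∈ S)).card : ℝ) ≤ j * z + x / 5 := by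
  have hM' : 0 < M := by linarith
  have e1 : (K.filter (fun u => κ u ∈ S)).card
      = ∑ l ∈ S, (K.filter (fun u => κ u = l)).card := by
    rw [Finset.card_eq_sum_card_fiberwise (f := κ) (t := S)]
    · refine Finset.sum_congr rfl fun l hl => ?_
      rw [Finset.filter_filter]
      congr 1
      refine Finset.filter_congr fun u _ => ?_
      constructor
      · exact fun h => h.2
      · intro h; exact ⟨by rw [h]; exact hl, h⟩
    · intro u hu
      have := (Finset.mem_filter.mp (Finset.mem_coe.mp hu)).2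
      exact Finset.mem_coe.mpr this
  have e2 : ((K.filter (fun u => κ u ∈ S)).card : ℝ)
      ≤ ∑ u ∈ K, ∑ l ∈ S, wt (A u) (B u) l + 4 * S.card := by
    rw [e1]
    push_cast
    refine (Finset.sum_le_sum h1).trans ?_
    rw [Finset.sum_add_distrib, Finset.sum_comm, Finset.sum_const, nsmul_eq_mul]
    linarith
  have e3 : ∀ u ∈ K, ∑ l ∈ S, wt (A u) (B u) l ≤ j / M + (if sp u then h / M else 0) := by
    intro u hu
    rw [sum_wt]
    have hj : ((S ∩ Icc (A u) (B u)).card : ℝ) ≤ j := by exact_mod_cast h3 u hu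
    have hc : ((S ∩ Icc (A u) (B u)).card : ℝ) ≤ (B u : ℝ) - A u + 1 := by
      have h8 : (S ∩ Icc (A u) (B u)).card ≤ B u + 1 - A u := by
        refine (Finset.card_le_card Finset.inter_subset_right).trans ?_
        rw [Nat.card_Icc]
      have h9 : ((S ∩ Icc (A u) (B u)).card : ℝ) ≤ ((B u + 1 - A u : ℕ) : ℝ) := by
        exact_mod_cast h8
      rw [Nat.cast_sub (hAB u hu)] at h9
      push_cast at h9
      linarith
    rcases h2 u hu with h8 | ⟨h8, h9⟩
    · rw [h8]
      have h10 : ((S ∩ Icc (A u) (B u)).card : ℝ) / M ≤ j / M :=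
        div_le_div_of_nonneg_right hj hM'.le
      have h11 : (0 : ℝ) ≤ if sp u then h / M else 0 := by
        split_ifs
        · positivity
        · exact le_rfl
      linarith
    · rw [h9, if_pos h8]
      rw [h9] at hc
      exact frac_le hM hh hj hc
  have e4 := Finset.sum_le_sum e3
  rw [Finset.sum_add_distrib, Finset.sum_const, nsmul_eq_mul, ← Finset.sum_filter,
    Finset.sum_const, nsmul_eq_mul] at e4
  have e5 : (K.card : ℝ) * (j / M) ≤ j * z := by
    have h8 : (K.card : ℝ) * (j / M) ≤ z * M * (j / M) :=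
      mul_le_mul_of_nonneg_right h5 (by positivity)
    have h9 : z * M * (j / M) = j * z := by field_simp
    linarith
  have e6 : ((K.filter sp).card : ℝ) * (h / M) ≤ x / 25 := by
    have h8 : ((K.filter sp).card : ℝ) * (h / M) ≤ ω * (h / M) :=
      mul_le_mul_of_nonneg_right h4 (by positivity)
    have h9 : ω * (h / M) ≤ x / 25 := by
      rw [← mul_div_assoc, div_le_iff₀ hM']
      exact h6
    linarith
  linarith

section main

variable {V : Type} [Fintype V] (F : Set (Sym2 V)) (side : V → Bool) (W : Set V)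
  (bad bu : Set (Sym2 V)) (N hh : ℕ)

/-- the end on the side `b` is in `W` -/
def eW (b : Bool) (e : Sym2 V) : Prop := ∃ a ∈ e, side a = b ∧ a ∈ W

/-- first allowed block -/
def lo (e : Sym2 V) : ℕ := if eW side W true e then hh + 1 else 1

/-- last allowed block -/
def hi (e : Sym2 V) : ℕ := if eW side W false e ∨ e ∈ bad then N - hh else N

/-- shift of the key at the `false` side -/
def sh (e : Sym2 V) : ℕ := if e ∈ bad then hh else 0

/-- shift of the key at the vertex `v` -/
def shv (v : V) (e : Sym2 V) : ℕ := if side v = true then 0 else sh bad hh e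

/-- edges at `v` which are not bursts -/
def Kv (v : V) : Finset V := (nb F v).filter (fun u => s(v, u) ∉ bu)

/-- the relation between items, blocks and constraints -/
def Rel (e : Sym2 V) (o : Fin (N + 1)) (c : V × Fin (N + 1)) : Prop :=
  e ∈ F ∧ e ∉ bu ∧ c.1 ∈ e ∧ o.val + shv side bad hh c.1 e = c.2.val

variable {F side W bad bu N hh}

omit [Fintype V] in
theorem eW_mk {a b : V} (ha : side a = true) (hb : side b = false) :
    (eW side W true s(a, b) ↔ a ∈ W) ∧ (eW side W false s(a, b) ↔ b ∈ W) := by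
  unfold eW
  constructor
  · constructor
    · rintro ⟨c, hc, h1, h2⟩
      rcases Sym2.mem_iff.mp hc with rfl | rfl
      · exact h2
      · rw [hb] at h1; exact absurd h1 (by decide)
    · intro h; exact ⟨a, Sym2.mem_mk_left a b, ha, h⟩
  · constructor
    · rintro ⟨c, hc, h1, h2⟩
      rcases Sym2.mem_iff.mp hc with rfl | rfl
      · rw [ha] at h1; exact absurd h1 (by decide)
      · exact h2
    · intro h; exact ⟨b, Sym2.mem_mk_right a b, hb, h⟩

omit [Fintype V] in
theorem lo_le_hi (hN : 2 * hh + 1 ≤ N) (e : Sym2 V) : lo side W hh e ≤ hi side W bad N hh e := by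
  unfold lo hi
  split_ifs <;> omega

omit [Fintype V] in
theorem one_le_lo (e : Sym2 V) : 1 ≤ lo side W hh e := by
  unfold lo
  split_ifs <;> omega

omit [Fintype V] in
theorem hi_sh_le (hN : 2 * hh + 1 ≤ N) (e : Sym2 V) :
    hi side W bad N hh e + sh bad hh e ≤ N := by
  unfold hi sh
  split_ifs with h1 h2 h3 <;> first | omega | skip
  exact absurd (Or.inr h3) h1

omit [Fintype V] in
theorem hi_le (e : Sym2 V) : hi side W bad N hh e ≤ N := by
  unfold hi
  split_ifs <;> omega

omit [Fintype V] in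
theorem sum_w (hN : 2 * hh + 1 ≤ N) (e : Sym2 V) :
    ∑ o : Fin (N + 1), wt (lo side W hh e) (hi side W bad N hh e) o.val = 1 := by
  have h1 := lo_le_hi (side := side) (W := W) (bad := bad) hN e
  have h2 := hi_le (side := side) (W := W) (bad := bad) (N := N) (hh := hh) e
  rw [Fin.sum_univ_eq_sum_range (fun l => wt (lo side W hh e) (hi side W bad N hh e) l) (N + 1),
    sum_wt]
  have h3 : range (N + 1) ∩ Icc (lo side W hh e) (hi side W bad N hh e)
      = Icc (lo side W hh e) (hi side W bad N hh e) := by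
    apply Finset.inter_eq_right.mpr
    intro l hl
    rw [mem_Icc] at hl
    rw [mem_range]
    omega
  rw [h3, Nat.card_Icc, Nat.cast_sub (by omega)]
  push_cast
  have h4 : (lo side W hh e : ℝ) ≤ hi side W bad N hh e := by exact_mod_cast h1
  have h5 : (hi side W bad N hh e : ℝ) - lo side W hh e + 1 ≠ 0 := by linarith
  rw [show (hi side W bad N hh e : ℝ) + 1 - lo side W hh e
    = (hi side W bad N hh e : ℝ) - lo side W hh e + 1 from by ring]
  exact div_self h5

theorem rel_card (e : Sym2 V) (o : Fin (N + 1)) :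
    (univ.filter (fun c => Rel F side bad bu N hh e o c)).card ≤ 2 := by
  induction e using Sym2.ind with
  | _ a b =>
  -- at most one constraint for each end
  have h1 : univ.filter (fun c => Rel F side bad bu N hh s(a, b) o c)
      ⊆ (univ.filter (fun c : V × Fin (N + 1) => c.1 = a ∧
          o.val + shv side bad hh a s(a, b) = c.2.val)) ∪
        (univ.filter (fun c : V × Fin (N + 1) => c.1 = b ∧
          o.val + shv side bad hh b s(a, b) = c.2.val)) := by
    intro c hc
    obtain ⟨-, -, h3, h4⟩ := (Finset.mem_filter.mp hc).2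
    rw [Finset.mem_union, Finset.mem_filter, Finset.mem_filter]
    rcases Sym2.mem_iff.mp h3 with h5 | h5
    · left; rw [h5] at h4; exact ⟨mem_univ _, h5, h4⟩
    · right; rw [h5] at h4; exact ⟨mem_univ _, h5, h4⟩
  have h2 : ∀ (v : V) (k : ℕ), (univ.filter (fun c : V × Fin (N + 1) => c.1 = v ∧
      k = c.2.val)).card ≤ 1 := by
    intro v k
    rw [Finset.card_le_one]
    intro c hc c' hc'
    obtain ⟨h3, h4⟩ := (Finset.mem_filter.mp hc).2
    obtain ⟨h5, h6⟩ := (Finset.mem_filter.mp hc').2
    exact Prod.ext (h3.trans h5.symm) (Fin.ext (h4.symm.trans h6))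
  refine (Finset.card_le_card h1).trans ((Finset.card_union_le _ _).trans ?_)
  have := h2 a (o.val + shv side bad hh a s(a, b))
  have := h2 b (o.val + shv side bad hh b s(a, b))
  omega

/-- the items at a vertex -/
theorem filter_rel (v : V) (P : Sym2 V → Prop) :
    univ.filter (fun e : Sym2 V => e ∈ F ∧ e ∉ bu ∧ v ∈ e ∧ P e)
      = ((Kv F bu v).filter (fun u => P s(v, u))).image (fun u => s(v, u)) := by
  ext e
  rw [Finset.mem_filter, Finset.mem_image]
  constructor
  · rintro ⟨-, h1, h2, h3, h4⟩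
    obtain ⟨u, rfl⟩ := Sym2.mem_iff_exists.mp h3
    refine ⟨u, ?_, rfl⟩
    unfold Kv nb
    rw [Finset.mem_filter, Finset.mem_filter, Finset.mem_filter]
    exact ⟨⟨⟨mem_univ _, h1⟩, h2⟩, h4⟩
  · rintro ⟨u, h1, rfl⟩
    unfold Kv nb at h1
    rw [Finset.mem_filter, Finset.mem_filter, Finset.mem_filter] at h1
    exact ⟨mem_univ _, h1.1.1.2, h1.1.2, Sym2.mem_mk_left _ _, h1.2⟩

omit [Fintype V] in
theorem mk_inj (v : V) : Function.Injective (fun u : V => s(v, u)) := by
  intro u u' h
  exact Sym2.congr_right.mp h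

theorem card_rel (v : V) (P : Sym2 V → Prop) :
    (univ.filter (fun e : Sym2 V => e ∈ F ∧ e ∉ bu ∧ v ∈ e ∧ P e)).card
      = ((Kv F bu v).filter (fun u => P s(v, u))).card := by
  rw [filter_rel, Finset.card_image_of_injective _ (mk_inj v)]

theorem sum_rel (v : V) (g : Sym2 V → ℝ) :
    (∑ e : Sym2 V, if e ∈ F ∧ e ∉ bu ∧ v ∈ e then g e else 0) = ∑ u ∈ Kv F bu v, g s(v, u) := by
  rw [← Finset.sum_filter]
  have h := filter_rel (F := F) (bu := bu) v (fun _ => True)
  simp only [and_true, Finset.filter_true] at h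
  rw [h, Finset.sum_image (fun a _ b _ h => mk_inj v h)]

/-- the expected number of edges with a given key -/
theorem inner_sum {A B σ l : ℕ} (hl : l ≤ N) :
    (∑ o : Fin (N + 1), if o.val + σ = l then wt A B o.val else 0) = wt (A + σ) (B + σ) l := by
  rw [Fin.sum_univ_eq_sum_range (fun k => if k + σ = l then wt A B k else 0) (N + 1)]
  by_cases h : σ ≤ l
  · rw [Finset.sum_eq_single (l - σ)]
    · rw [if_pos (by omega)]
      unfold wt
      have e1 : (A ≤ l - σ ∧ l - σ ≤ B) ↔ (A + σ ≤ l ∧ l ≤ B + σ) := by omega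
      simp only [e1]
      push_cast
      have e2 : (B : ℝ) + σ - (A + σ) + 1 = B - A + 1 := by ring
      rw [e2]
    · intro k _ hk
      rw [if_neg (by omega)]
    · intro hk
      exact absurd (mem_range.mpr (by omega)) hk
  · rw [Finset.sum_eq_zero]
    · unfold wt
      rw [if_neg (by omega)]
    · intro k _
      rw [if_neg (by omega)]

/-- keys of the edges -/
def pk (side : V → Bool) (W : Set V) (bu : Set (Sym2 V)) (N : ℕ) (φ : Sym2 V → Fin (N + 1))
    (e : Sym2 V) : ℕ :=
  if e ∈ bu then (if eW side W true e then N + 1 else 0) else (φ e).val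

/-- keys of the edges at the `false` side -/
def qk (side : V → Bool) (W : Set V) (bad bu : Set (Sym2 V)) (N hh : ℕ)
    (φ : Sym2 V → Fin (N + 1)) (e : Sym2 V) : ℕ :=
  if e ∈ bu then (if eW side W true e then N + 1 else 0) else (φ e).val + sh bad hh e

section bounds

variable {φ : Sym2 V → Fin (N + 1)} {T G x ω z : ℝ}
  (hN : 2 * hh + 1 ≤ N) (hx : 0 < x) (hzN : z * N = T)
  (hzG : T - 2 * G ≤ z * (N - hh)) (hw1 : ω * hh ≤ x / 25 * N)
  (hw2 : ω * hh ≤ x / 25 * (N - hh)) (h4N : 4 * (N : ℝ) ≤ x / 10)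
  (hF : ∀ u v, s(u, v) ∈ F → side u ≠ side v)
  (hbad : ∀ u v, s(u, v) ∈ bad → u ∉ W)
  (hbu : ∀ u v, s(u, v) ∈ bu → (u ∈ W ↔ v ∉ W))
  (hω : ∀ v, (((nb F v).filter (fun u => s(v, u) ∈ bad ∨ u ∈ W)).card : ℝ) ≤ ω)
  (hd : ∀ v ∉ W, (dg F v : ℝ) ≤ T)
  (hb : ∀ v ∉ W, (((nb F v).filter (fun u => s(v, u) ∈ bu)).card : ℝ) ≤ x)
  (hW : ∀ v ∈ W, (((nb F v).filter (fun u => s(v, u) ∉ bu)).card : ℝ) ≤ T - 2 * G)
  (hφ1 : ∀ e, 0 < wt (lo side W hh e) (hi side W bad N hh e) (φ e).val)
  (hφ2 : ∀ (v : V) (l : ℕ), l ≤ N → (((Kv F bu v).filter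
    (fun u => (φ s(v, u)).val + shv side bad hh v s(v, u) = l)).card : ℝ) ≤
    ∑ u ∈ Kv F bu v, wt (lo side W hh s(v, u) + shv side bad hh v s(v, u))
      (hi side W bad N hh s(v, u) + shv side bad hh v s(v, u)) l + 4)

omit [Fintype V] in
include hφ1 in
theorem phi_mem (e : Sym2 V) :
    lo side W hh e ≤ (φ e).val ∧ (φ e).val ≤ hi side W bad N hh e := by
  have := hφ1 e
  unfold wt at this
  by_contra hcon
  rw [if_neg hcon] at this
  exact lt_irrefl _ this

include hN hx hzN hzG hw1 hw2 h4N hF hbad hω hd hW hφ2 in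
/-- the common estimate -/
theorem vertex_bound (v : V) (S : Finset ℕ) (j : ℕ) (hS : ∀ l ∈ S, 1 ≤ l ∧ l ≤ N)
    (hj : ∀ u ∈ Kv F bu v, (S ∩ Icc (lo side W hh s(v, u) + shv side bad hh v s(v, u))
      (hi side W bad N hh s(v, u) + shv side bad hh v s(v, u))).card ≤ j) :
    (((Kv F bu v).filter (fun u => (φ s(v, u)).val + shv side bad hh v s(v, u) ∈ S)).card : ℝ)
      ≤ j * z + x / 5 := by
  have hNr : 2 * (hh : ℝ) + 1 ≤ N := by exact_mod_cast hN
  have hSN : 4 * (S.card : ℝ) ≤ x / 10 := by
    have h1 : S.card ≤ N := by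
      have : S ⊆ Icc 1 N := fun l hl => mem_Icc.mpr (hS l hl)
      have := Finset.card_le_card this
      rwa [Nat.card_Icc, Nat.add_sub_cancel] at this
    have h2 : (S.card : ℝ) ≤ N := by exact_mod_cast h1
    linarith
  obtain ⟨sp, hspd⟩ : ∃ sp : V → Prop, ∀ u, sp u ↔ (s(v, u) ∈ bad ∨ u ∈ W) :=
    ⟨fun u => s(v, u) ∈ bad ∨ u ∈ W, fun u => Iff.rfl⟩
  have hsp : (((Kv F bu v).filter sp).card : ℝ) ≤ ω := by
    refine le_trans ?_ (hω v)
    have : (Kv F bu v).filter sp
        ⊆ (nb F v).filter (fun u => s(v, u) ∈ bad ∨ u ∈ W) := by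
      intro u hu
      unfold Kv at hu
      rw [Finset.mem_filter, Finset.mem_filter] at hu
      rw [Finset.mem_filter]
      exact ⟨hu.1.1, (hspd u).mp hu.2⟩
    exact_mod_cast Finset.card_le_card this
  have hKF : ∀ u ∈ Kv F bu v, s(v, u) ∈ F := by
    intro u hu
    unfold Kv nb at hu
    rw [Finset.mem_filter, Finset.mem_filter] at hu
    exact hu.1.2
  have hAB : ∀ u ∈ Kv F bu v, lo side W hh s(v, u) + shv side bad hh v s(v, u)
      ≤ hi side W bad N hh s(v, u) + shv side bad hh v s(v, u) + 1 := by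
    intro u _
    have := lo_le_hi (side := side) (W := W) (bad := bad) hN s(v, u)
    omega
  have hNh : ((N - hh : ℕ) : ℝ) = (N : ℝ) - hh := Nat.cast_sub (by omega)
  -- the two possible lengths
  have key : ∀ M : ℝ, (M = if v ∈ W then (N : ℝ) - hh else N) → ∀ u ∈ Kv F bu v,
      (((hi side W bad N hh s(v, u) + shv side bad hh v s(v, u) : ℕ) : ℝ)
        - (lo side W hh s(v, u) + shv side bad hh v s(v, u) : ℕ) + 1 = M) ∨
      (sp u ∧
        ((hi side W bad N hh s(v, u) + shv side bad hh v s(v, u) : ℕ) : ℝ)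
        - (lo side W hh s(v, u) + shv side bad hh v s(v, u) : ℕ) + 1 = M - hh) := by
    intro M hMd u hu
    rw [hspd u]
    have hne := hF v u (hKF u hu)
    have hb1 := hbad v u
    have hb2 : s(v, u) ∈ bad → u ∉ W := by
      intro h
      rw [Sym2.eq_swap] at h
      exact hbad u v h
    rw [hMd]
    rcases hv : side v with _ | _
    · -- `v` on the false side
      have hu' : side u = true := by
        rcases h : side u with _ | _
        · rw [hv, h] at hne; exact absurd rfl hne
        · rfl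
      obtain ⟨e1, e2⟩ := eW_mk (W := W) hu' hv
      rw [Sym2.eq_swap] at e1 e2
      simp only [lo, hi, shv, sh, hv, e1, e2, Bool.false_eq_true, if_false]
      by_cases c1 : v ∈ W <;> by_cases c2 : u ∈ W <;> by_cases c3 : s(v, u) ∈ bad <;>
        simp only [c1, c2, c3, if_true, if_false, or_true, true_or, or_false, or_self,
          true_and, false_and, hNh] <;> first
        | exact absurd c1 (hb1 c3)
        | exact absurd c2 (hb2 c3)
        | (push_cast; rw [hNh]; first | ring1 | (left; ring1) | (right; ring1))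
        | (push_cast; first | ring1 | (left; ring1) | (right; ring1))
    · have hu' : side u = false := by
        rcases h : side u with _ | _
        · rfl
        · rw [hv, h] at hne; exact absurd rfl hne
      obtain ⟨e1, e2⟩ := eW_mk (W := W) hv hu'
      simp only [lo, hi, shv, sh, hv, e1, e2, if_true]
      by_cases c1 : v ∈ W <;> by_cases c2 : u ∈ W <;> by_cases c3 : s(v, u) ∈ bad <;>
        simp only [c1, c2, c3, if_true, if_false, or_true, true_or, or_false, or_self,
          true_and, false_and, hNh] <;> first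
        | exact absurd c1 (hb1 c3)
        | exact absurd c2 (hb2 c3)
        | (push_cast; rw [hNh]; first | ring1 | (left; ring1) | (right; ring1))
        | (push_cast; first | ring1 | (left; ring1) | (right; ring1))
  have h1 : ∀ l ∈ S, (((Kv F bu v).filter
      (fun u => (φ s(v, u)).val + shv side bad hh v s(v, u) = l)).card : ℝ) ≤
      ∑ u ∈ Kv F bu v, wt (lo side W hh s(v, u) + shv side bad hh v s(v, u))
      (hi side W bad N hh s(v, u) + shv side bad hh v s(v, u)) l + 4 :=
    fun l hl => hφ2 v l (hS l hl).2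
  by_cases hvW : v ∈ W
  · refine vb (Kv F bu v) sp _ _ _ S ((N : ℝ) - hh) hh z ω x j
      (by linarith) (by positivity) h1 (key _ (by rw [if_pos hvW])) hj hAB hsp ?_ hw2 hSN hx
    exact (hW v hvW).trans hzG
  · refine vb (Kv F bu v) sp _ _ _ S (N : ℝ) hh z ω x j
      (by linarith) (by positivity) h1 (key _ (by rw [if_neg hvW])) hj hAB hsp ?_ hw1 hSN hx
    rw [hzN]
    refine le_trans ?_ (hd v hvW)
    have : (Kv F bu v).card ≤ dg F v := by
      unfold Kv dg
      exact Finset.card_filter_le _ _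
    exact_mod_cast this

include hN hx hzN hzG hw1 hw2 h4N hF hbad hω hd hb hW hφ1 hφ2 in
theorem Pb (a : V) (ha : side a = true) (i : ℕ) (hi' : i ≤ N) :
    (((nb F a).filter (fun u => pk side W bu N φ s(a, u) ≤ i)).card : ℝ)
      ≤ ((if a ∈ W then i - hh else i : ℕ) : ℝ) * z + 2 * x := by
  have hside : ∀ u, s(a, u) ∈ F → side u = false := by
    intro u hu
    have := hF a u hu
    rcases h : side u with _ | _
    · rfl
    · rw [ha, h] at this; exact absurd rfl this
  obtain ⟨Bu, hBu, hBuc⟩ : ∃ Bu : Finset V, (a ∉ W → ∀ u ∈ nb F a, s(a, u) ∈ bu → u ∈ Bu) ∧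
      (Bu.card : ℝ) ≤ x := by
    by_cases haW : a ∈ W
    · exact ⟨∅, fun h => absurd haW h, by rw [Finset.card_empty]; exact_mod_cast hx.le⟩
    · exact ⟨_, fun _ u hu h => Finset.mem_filter.mpr ⟨hu, h⟩, hb a haW⟩
  have hsub : (nb F a).filter (fun u => pk side W bu N φ s(a, u) ≤ i) ⊆
      (Kv F bu a).filter (fun u => (φ s(a, u)).val + shv side bad hh a s(a, u) ∈ Icc 1 i)
        ∪ Bu := by
    intro u hu
    rw [Finset.mem_filter] at hu
    obtain ⟨hu1, hu2⟩ := hu
    have huF : s(a, u) ∈ F := by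
      unfold nb at hu1
      exact (Finset.mem_filter.mp hu1).2
    rw [Finset.mem_union, Finset.mem_filter]
    unfold pk at hu2
    by_cases h : s(a, u) ∈ bu
    · right
      rw [if_pos h] at hu2
      apply hBu _ u hu1 h
      intro haW
      rw [if_pos ((eW_mk ha (hside u huF)).1.mpr haW)] at hu2
      omega
    · left
      rw [if_neg h] at hu2
      refine ⟨?_, ?_⟩
      · unfold Kv
        exact Finset.mem_filter.mpr ⟨hu1, h⟩
      · rw [mem_Icc]
        have h1 := (phi_mem hφ1 s(a, u)).1
        have h2 := one_le_lo (side := side) (W := W) (hh := hh) s(a, u)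
        unfold shv
        rw [if_pos ha]
        omega
  have h1 := vertex_bound hN hx hzN hzG hw1 hw2 h4N hF hbad hω hd hW hφ2 a (Icc 1 i)
    (if a ∈ W then i - hh else i) (fun l hl => by rw [mem_Icc] at hl; omega) (by
      intro u hu
      have huF : s(a, u) ∈ F := by
        unfold Kv nb at hu
        rw [Finset.mem_filter, Finset.mem_filter] at hu
        exact hu.1.2
      have e1 := (eW_mk (W := W) ha (hside u huF)).1
      have h2 : Icc 1 i ∩ Icc (lo side W hh s(a, u) + shv side bad hh a s(a, u))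
          (hi side W bad N hh s(a, u) + shv side bad hh a s(a, u))
          ⊆ Icc (lo side W hh s(a, u)) i := by
        intro l hl
        rw [mem_inter, mem_Icc, mem_Icc] at hl
        rw [mem_Icc]
        omega
      refine (Finset.card_le_card h2).trans ?_
      rw [Nat.card_Icc]
      unfold lo
      by_cases haW : a ∈ W
      · rw [if_pos (e1.mpr haW), if_pos haW]; omega
      · rw [if_neg (fun h => haW (e1.mp h)), if_neg haW]; omega)
  have h2 : (((nb F a).filter (fun u => pk side W bu N φ s(a, u) ≤ i)).card : ℝ) ≤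
      (((Kv F bu a).filter
        (fun u => (φ s(a, u)).val + shv side bad hh a s(a, u) ∈ Icc 1 i)).card : ℝ)
        + Bu.card := by
    exact_mod_cast (Finset.card_le_card hsub).trans (Finset.card_union_le _ _)
  linarith

include hN hx hzN hzG hw1 hw2 h4N hF hbad hbu hω hd hb hW hφ1 hφ2 in
theorem Qb (b : V) (hb' : side b = false) (i : ℕ) (hi1 : 1 ≤ i) :
    (((nb F b).filter (fun u => i ≤ qk side W bad bu N hh φ s(b, u))).card : ℝ)
      ≤ (((if b ∈ W then N - hh else N) + 1 - i : ℕ) : ℝ) * z + 2 * x := by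
  have hside : ∀ u, s(b, u) ∈ F → side u = true := by
    intro u hu
    have := hF b u hu
    rcases h : side u with _ | _
    · rw [hb', h] at this; exact absurd rfl this
    · rfl
  obtain ⟨Bu, hBu, hBuc⟩ : ∃ Bu : Finset V, (b ∉ W → ∀ u ∈ nb F b, s(b, u) ∈ bu → u ∈ Bu) ∧
      (Bu.card : ℝ) ≤ x := by
    by_cases hbW : b ∈ W
    · exact ⟨∅, fun h => absurd hbW h, by rw [Finset.card_empty]; exact_mod_cast hx.le⟩
    · exact ⟨_, fun _ u hu h => Finset.mem_filter.mpr ⟨hu, h⟩, hb b hbW⟩
  have hsub : (nb F b).filter (fun u => i ≤ qk side W bad bu N hh φ s(b, u)) ⊆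
      (Kv F bu b).filter (fun u => (φ s(b, u)).val + shv side bad hh b s(b, u) ∈ Icc i N)
        ∪ Bu := by
    intro u hu
    rw [Finset.mem_filter] at hu
    obtain ⟨hu1, hu2⟩ := hu
    have huF : s(b, u) ∈ F := by
      unfold nb at hu1
      exact (Finset.mem_filter.mp hu1).2
    rw [Finset.mem_union, Finset.mem_filter]
    unfold qk at hu2
    by_cases h : s(b, u) ∈ bu
    · right
      rw [if_pos h] at hu2
      apply hBu _ u hu1 h
      intro hbW
      have e1 := (eW_mk (W := W) (hside u huF) hb').1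
      rw [Sym2.eq_swap] at e1
      rw [if_neg (fun h' => (hbu b u h).mp hbW (e1.mp h'))] at hu2
      omega
    · left
      rw [if_neg h] at hu2
      refine ⟨?_, ?_⟩
      · unfold Kv
        exact Finset.mem_filter.mpr ⟨hu1, h⟩
      · rw [mem_Icc]
        have h1 := (phi_mem hφ1 s(b, u)).2
        have h2 := hi_sh_le (side := side) (W := W) (bad := bad) hN s(b, u)
        unfold shv
        rw [if_neg (by rw [hb']; decide)]
        omega
  have h1 := vertex_bound hN hx hzN hzG hw1 hw2 h4N hF hbad hω hd hW hφ2 b (Icc i N)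
    ((if b ∈ W then N - hh else N) + 1 - i) (fun l hl => by rw [mem_Icc] at hl; omega) (by
      intro u hu
      have huF : s(b, u) ∈ F := by
        unfold Kv nb at hu
        rw [Finset.mem_filter, Finset.mem_filter] at hu
        exact hu.1.2
      have e1 := (eW_mk (W := W) (hside u huF) hb').2
      rw [Sym2.eq_swap] at e1
      have h2 : Icc i N ∩ Icc (lo side W hh s(b, u) + shv side bad hh b s(b, u))
          (hi side W bad N hh s(b, u) + shv side bad hh b s(b, u))
          ⊆ Icc i (hi side W bad N hh s(b, u) + shv side bad hh b s(b, u)) := by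
        intro l hl
        rw [mem_inter, mem_Icc, mem_Icc] at hl
        rw [mem_Icc]
        omega
      refine (Finset.card_le_card h2).trans ?_
      rw [Nat.card_Icc]
      have h3 := hi_sh_le (side := side) (W := W) (bad := bad) hN s(b, u)
      unfold shv
      rw [if_neg (by rw [hb']; decide)]
      by_cases hbW : b ∈ W
      · rw [if_pos hbW]
        have h4 : s(b, u) ∉ bad := fun h => hbad b u h hbW
        unfold hi sh
        rw [if_pos (Or.inl (e1.mpr hbW)), if_neg h4]
      · rw [if_neg hbW]; omega)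
  have h2 : (((nb F b).filter (fun u => i ≤ qk side W bad bu N hh φ s(b, u))).card : ℝ) ≤
      (((Kv F bu b).filter
        (fun u => (φ s(b, u)).val + shv side bad hh b s(b, u) ∈ Icc i N)).card : ℝ)
        + Bu.card := by
    exact_mod_cast (Finset.card_le_card hsub).trans (Finset.card_union_le _ _)
  linarith

end bounds

end main

/-- (R3) one level with many tiny blocks -/
theorem R3 (hR : Round_stmt) (hL2 : Level2_stmt) : Level3_stmt := by
  intro V _ F side L W bad bu T G x ω hx hxG hGT hT hwG hF hbad hbu hω hd hb hW hl1 hl2 hl3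
  by_cases hV : Nonempty V
  swap
  · refine ⟨fun _ => 0, ?_, ?_⟩
    · intro e
      induction e using Sym2.ind with
      | _ a b => exact absurd ⟨a⟩ hV
    · intro u
      exact absurd ⟨u⟩ hV
  have hω0 : 0 ≤ ω := le_trans (by positivity) (hω hV.some)
  obtain ⟨N, hh, z, hN, hz0, hzx, hzN, hGz, hzG, hw1, hw2, h4N⟩ :=
    params hx hxG hGT hT hω0 hwG
  -- the rounding
  obtain ⟨φ, hφ1, hφ0⟩ := hR (Sym2 V) (Fin (N + 1)) (V × Fin (N + 1))
    (Rel F side bad bu N hh)
    (fun e o => wt (lo side W hh e) (hi side W bad N hh e) o.val)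
    (fun e o => wt_nonneg (by have := lo_le_hi (side := side) (W := W) (bad := bad) hN e; omega) _)
    (sum_w hN)
    (fun e o => rel_card e o)
  have hφ2 : ∀ (v : V) (l : ℕ), l ≤ N → (((Kv F bu v).filter
      (fun u => (φ s(v, u)).val + shv side bad hh v s(v, u) = l)).card : ℝ) ≤
      ∑ u ∈ Kv F bu v, wt (lo side W hh s(v, u) + shv side bad hh v s(v, u))
        (hi side W bad N hh s(v, u) + shv side bad hh v s(v, u)) l + 4 := by
    intro v l hl
    have h1 := (abs_le.mp (hφ0 (v, ⟨l, by omega⟩))).2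
    have e1 : (univ.filter (fun e => Rel F side bad bu N hh e (φ e) (v, ⟨l, by omega⟩))).card
        = ((Kv F bu v).filter
          (fun u => (φ s(v, u)).val + shv side bad hh v s(v, u) = l)).card := by
      refine (Eq.trans (congrArg Finset.card ?_) (card_rel (F := F) (bu := bu) v
        (fun e => (φ e).val + shv side bad hh v e = l))).trans (congrArg Finset.card ?_)
      · ext e
        simp only [Finset.mem_filter]
        exact Iff.rfl
      · ext u
        simp only [Finset.mem_filter]
    have e2 : (∑ e : Sym2 V, ∑ o : Fin (N + 1),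
        (if Rel F side bad bu N hh e o (v, ⟨l, by omega⟩) then
          wt (lo side W hh e) (hi side W bad N hh e) o.val else 0))
        = ∑ u ∈ Kv F bu v, wt (lo side W hh s(v, u) + shv side bad hh v s(v, u))
          (hi side W bad N hh s(v, u) + shv side bad hh v s(v, u)) l := by
      rw [← sum_rel v (fun e => wt (lo side W hh e + shv side bad hh v e)
          (hi side W bad N hh e + shv side bad hh v e) l)]
      refine Finset.sum_congr rfl fun e _ => ?_
      by_cases h : e ∈ F ∧ e ∉ bu ∧ v ∈ e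
      · rw [if_pos h, ← inner_sum hl]
        refine Finset.sum_congr rfl fun o _ => ?_
        by_cases h2 : o.val + shv side bad hh v e = l
        · rw [if_pos h2, if_pos ⟨h.1, h.2.1, h.2.2, h2⟩]
        · rw [if_neg h2, if_neg (fun h3 => h2 h3.2.2.2)]
      · rw [if_neg h]
        refine Finset.sum_eq_zero fun o _ => ?_
        rw [if_neg (fun h3 => h ⟨h3.1, h3.2.1, h3.2.2.1⟩)]
    rw [e1, e2] at h1
    linarith
  -- the two estimates
  have hP := Pb hN hx hzN hzG hw1 hw2 h4N hF hbad hω hd hb hW hφ1 hφ2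
  have hQ := Qb hN hx hzN hzG hw1 hw2 h4N hF hbad hbu hω hd hb hW hφ1 hφ2
  refine hL2 V F side L (pk side W bu N φ) (qk side W bad bu N hh φ) hF ?_
  intro a b hab ha hb'
  obtain ⟨ea, eb⟩ := eW_mk (W := W) ha hb'
  suffices hreal : (((nb F a).filter
      (fun u => pk side W bu N φ s(a, u) ≤ pk side W bu N φ s(a, b))).card : ℝ) +
      (((nb F b).filter (fun u => qk side W bad bu N hh φ s(a, b) ≤
        qk side W bad bu N hh φ s(b, u))).card : ℝ) ≤ (L s(a, b)).card by
    have : ((nb F a).filter
      (fun u => pk side W bu N φ s(a, u) ≤ pk side W bu N φ s(a, b))).card +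
      ((nb F b).filter (fun u => qk side W bad bu N hh φ s(a, b) ≤
        qk side W bad bu N hh φ s(b, u))).card ≤ (L s(a, b)).card := by exact_mod_cast hreal
    omega
  by_cases hbur : s(a, b) ∈ bu
  · have e1 : pk side W bu N φ s(a, b) = if a ∈ W then N + 1 else 0 := by
      unfold pk
      rw [if_pos hbur]
      simp only [ea]
    have e2 : qk side W bad bu N hh φ s(a, b) = if a ∈ W then N + 1 else 0 := by
      unfold qk
      rw [if_pos hbur]
      simp only [ea]
    rw [e1, e2]
    by_cases haW : a ∈ W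
    · rw [if_pos haW]
      have hbW : b ∉ W := (hbu a b hbur).mp haW
      have h1 := hl3 a b hab hbur haW
      have h2 : (((nb F a).filter (fun u => pk side W bu N φ s(a, u) ≤ N + 1)).card : ℝ)
          ≤ dg F a := by
        unfold dg
        exact_mod_cast Finset.card_filter_le _ _
      have h3 : (((nb F b).filter (fun u => N + 1 ≤ qk side W bad bu N hh φ s(b, u))).card : ℝ)
          ≤ x := by
        refine le_trans ?_ (hb b hbW)
        have : (nb F b).filter (fun u => N + 1 ≤ qk side W bad bu N hh φ s(b, u))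
            ⊆ (nb F b).filter (fun u => s(b, u) ∈ bu) := by
          intro u hu
          rw [Finset.mem_filter] at hu ⊢
          refine ⟨hu.1, ?_⟩
          by_contra hcon
          have h4 := hu.2
          unfold qk at h4
          rw [if_neg hcon] at h4
          have h5 := (phi_mem hφ1 s(b, u)).2
          have h6 := hi_sh_le (side := side) (W := W) (bad := bad) hN s(b, u)
          omega
        exact_mod_cast Finset.card_le_card this
      linarith
    · rw [if_neg haW]
      have hbW : b ∈ W := by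
        by_contra hcon
        exact haW ((hbu a b hbur).mpr hcon)
      have h1 : (dg F b : ℝ) + 10 * x ≤ ((L s(a, b)).card : ℝ) := by
        have := hl3 b a (by rw [Sym2.eq_swap]; exact hab) (by rw [Sym2.eq_swap]; exact hbur) hbW
        rw [Sym2.eq_swap] at this
        exact this
      have h2 : (((nb F b).filter (fun u => 0 ≤ qk side W bad bu N hh φ s(b, u))).card : ℝ)
          ≤ dg F b := by
        unfold dg
        exact_mod_cast Finset.card_filter_le _ _
      have h3 : (((nb F a).filter (fun u => pk side W bu N φ s(a, u) ≤ 0)).card : ℝ)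
          ≤ x := by
        refine le_trans ?_ (hb a haW)
        have : (nb F a).filter (fun u => pk side W bu N φ s(a, u) ≤ 0)
            ⊆ (nb F a).filter (fun u => s(a, u) ∈ bu) := by
          intro u hu
          rw [Finset.mem_filter] at hu ⊢
          refine ⟨hu.1, ?_⟩
          by_contra hcon
          have h4 := hu.2
          unfold pk at h4
          rw [if_neg hcon] at h4
          have h5 := (phi_mem hφ1 s(a, u)).1
          have h6 := one_le_lo (side := side) (W := W) (hh := hh) s(a, u)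
          omega
        exact_mod_cast Finset.card_le_card this
      linarith
  · have e1 : pk side W bu N φ s(a, b) = (φ s(a, b)).val := by
      unfold pk
      rw [if_neg hbur]
    have e2 : qk side W bad bu N hh φ s(a, b) = (φ s(a, b)).val + sh bad hh s(a, b) := by
      unfold qk
      rw [if_neg hbur]
    rw [e1, e2]
    obtain ⟨h1, h2⟩ := phi_mem hφ1 s(a, b)
    have h3 := one_le_lo (side := side) (W := W) (hh := hh) s(a, b)
    have h4 := hi_le (side := side) (W := W) (bad := bad) (N := N) (hh := hh) s(a, b)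
    have hPa := hP a ha (φ s(a, b)).val (h2.trans h4)
    have hQb := hQ b hb' ((φ s(a, b)).val + sh bad hh s(a, b)) (by omega)
    have h5 := hl2 s(a, b) hab hbur
    -- the total number of blocks
    have key : (s(a, b) ∉ bad ∧ a ∉ W ∧ b ∉ W ∧
        (if a ∈ W then (φ s(a, b)).val - hh else (φ s(a, b)).val) +
          ((if b ∈ W then N - hh else N) + 1 - ((φ s(a, b)).val + sh bad hh s(a, b)))
          ≤ N + 1) ∨
        (if a ∈ W then (φ s(a, b)).val - hh else (φ s(a, b)).val) +
          ((if b ∈ W then N - hh else N) + 1 - ((φ s(a, b)).val + sh bad hh s(a, b))) + hh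
          ≤ N + 1 := by
      unfold lo at h1
      unfold hi at h2
      simp only [ea] at h1
      simp only [eb] at h2
      unfold sh
      by_cases c1 : a ∈ W <;> by_cases c2 : b ∈ W <;> by_cases c3 : s(a, b) ∈ bad <;>
        simp only [c1, c2, c3, if_true, if_false, or_true, or_false, or_self] at h1 h2 ⊢ <;>
        first
        | exact absurd c1 (hbad a b c3)
        | (right; omega)
        | (left; refine ⟨not_false, not_false, not_false, ?_⟩; omega)
        | omega
        | skip
    rcases key with ⟨c3, c1, c2, hk⟩ | hk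
    · have h6 := hl1 a b hab c1 c2 c3
      have h7 : (((if a ∈ W then (φ s(a, b)).val - hh else (φ s(a, b)).val : ℕ) : ℝ) +
          (((if b ∈ W then N - hh else N) + 1 - ((φ s(a, b)).val + sh bad hh s(a, b)) : ℕ) : ℝ))
          ≤ N + 1 := by exact_mod_cast hk
      nlinarith
    · have h7 : (((if a ∈ W then (φ s(a, b)).val - hh else (φ s(a, b)).val : ℕ) : ℝ) +
          (((if b ∈ W then N - hh else N) + 1 - ((φ s(a, b)).val + sh bad hh s(a, b)) : ℕ) : ℝ))
          + hh ≤ N + 1 := by exact_mod_cast hk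
      nlinarith

end

end Pool.Agent.Helper56.LR
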